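import Pool.Agent.H90.EH.Targets

/-!
# Board hst, module FIN: the final theorem
-/

set_option autoImplicit false

namespace Pool.Agent.H35.EH.FIN

open Finset Pool.Agent.H90.EH
open scoped Classical

lemma Lm_mul {ι : Type} [Fintype ι] [DecidableEq ι] (A B : Matrix ι ι ℤ) (y : ι → ℚ) :
    Lm (A * B) y = Lm A (Lm B y) := by
  have h : (A * B).map (fun z : ℤ => (z : ℚ)) =
      A.map (fun z : ℤ => (z : ℚ)) * B.map (fun z : ℤ => (z : ℚ)) :=
    Matrix.map_mul (f := Int.castRingHom ℚ)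
  unfold Lm
  rw [h, Matrix.toLin'_mul_apply]

lemma Lm_one {ι : Type} [Fintype ι] [DecidableEq ι] (y : ι → ℚ) :
    Lm (1 : Matrix ι ι ℤ) y = y := by
  have h : (1 : Matrix ι ι ℤ).map (fun z : ℤ => (z : ℚ)) = 1 :=
    Matrix.map_one _ Int.cast_zero Int.cast_one
  unfold Lm
  rw [h, Matrix.toLin'_one, LinearMap.id_apply]

lemma Lm_pow {ι : Type} [Fintype ι] [DecidableEq ι] (A : Matrix ι ι ℤ) (y : ι → ℚ)
    (h : Lm A y = y) (n : ℕ) : Lm (A ^ n) y = y := by
  induction n with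
  | zero => rw [pow_zero, Lm_one]
  | succ n ih => rw [pow_succ, Lm_mul, h, ih]

lemma fix_iff {ι : Type} [Fintype ι] [DecidableEq ι] (N : Matrix ι ι ℤ) (p r c : ℕ)
    (hp : p.Prime) (hN : N ^ p ^ r = 1) (hc : ¬ p ∣ c) (y : ι → ℚ) :
    Lm (N ^ c) y = y ↔ Lm N y = y := by
  constructor
  · intro h
    have hco : Nat.Coprime c (p ^ r) :=
      Nat.Coprime.pow_right r ((Nat.Prime.coprime_iff_not_dvd hp).2 hc).symm
    obtain ⟨c', -, hc'⟩ := Nat.exists_mul_mod_eq_of_coprime 1 hco (pow_pos hp.pos r).ne'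
    have h1 : c * c' ≡ 1 [MOD p ^ r] := hc'
    have h2 : orderOf N ∣ p ^ r := orderOf_dvd_of_pow_eq_one hN
    have h3 : c * c' ≡ 1 [MOD orderOf N] := h1.of_dvd h2
    have h4 : N ^ (c * c') = N := by
      rw [← pow_mod_orderOf, h3, pow_mod_orderOf, pow_one]
    have h5 := Lm_pow (N ^ c) y h c'
    rwa [← pow_mul, h4] at h5
  · intro h
    exact Lm_pow N y h c

lemma height_hom {G : Type} [Group G] {d : ℕ} (ρ : AffAct G d) (g : G) (x : Fin d ⊕ Unit → ℚ) :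
    lc d (Lm (ρ.hom g) x) = lc d x := by
  unfold lc Lm AffAct.hom
  simp [Matrix.mulVec, dotProduct, Matrix.fromBlocks]

theorem pf_FIN (h1 : T_AB1) (h2 : T_AB2) (h3 : T_AB3) (h4 : T_CYK) (h5 : T_EFF) (h6 : T_HOM)
    (h7 : T_LFZ) (h8 : T_TOP) (h9 : T_CFX) (h10 : T_CIV) (h11 : T_NUM) : T_FIN := by
  intro p r hp G _ _ hcyc hcard d ρ P hP hint hinv hfix i
  obtain ⟨S, rfl⟩ := hP
  choose T hT using hfix
  obtain ⟨g₀, hg₀⟩ := hcyc.exists_generator
  have hpow : ∀ (g : G) (k : ℕ), ρ.hom (g ^ k) = ρ.hom g ^ k := by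
    intro g k
    induction k with
    | zero => rw [pow_zero, pow_zero, (h6 G d ρ 1 1).2]
    | succ k ih => rw [pow_succ, pow_succ, (h6 G d ρ _ _).1, ih]
  set M := ρ.hom g₀ with hM
  have hord : M ^ p ^ r = 1 := by
    rw [hM, ← hpow, ← hcard, pow_card_eq_one', (h6 G d ρ 1 1).2]
  -- the cones
  have hcone : ∀ g, ∀ y, y ∈ Cone (gen (T g)) ↔ y ∈ Cone (gen S) ∧ Lm (ρ.hom g) y = y :=
    fun g => h9 G d ρ g S (T g) (hT g)
  set A : ℕ → Finset (Fin d ⊕ Unit → ℚ) := fun s =>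
    if s = r then gen S else gen (T (g₀ ^ p ^ s)) with hA
  have hAr : A r = gen S := by rw [hA]; exact if_pos rfl
  have hfixA : ∀ s, s ≤ r → ∀ x, x ∈ Cone (A s) ↔ x ∈ Cone (A r) ∧ Lm (M ^ p ^ s) x = x := by
    intro s _ x
    by_cases hsr : s = r
    · subst hsr
      constructor
      · intro hx
        exact ⟨hx, by rw [hord, Lm_one]⟩
      · exact fun hx => hx.1
    · have hAs : A s = gen (T (g₀ ^ p ^ s)) := by rw [hA]; exact if_neg hsr
      rw [hAs, hAr, hcone, hpow]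
  have hsys : Sys (lc d) M p r A := by
    refine ⟨hp, hord, height_hom ρ g₀, ?_, ?_, ?_, hfixA⟩
    · intro s _
      by_cases hsr : s = r
      · subst hsr
        rw [hAr]
        exact h7 d S
      · have hAs : A s = gen (T (g₀ ^ p ^ s)) := by rw [hA]; exact if_neg hsr
        rw [hAs]
        exact h7 d _
    · rw [hAr]
      exact h8 d S hint
    · rw [hAr]
      exact h10 G d ρ g₀ S (hinv g₀)
  set a : ℕ → ℤ := fun s => PowerSeries.coeff i (th (lc d) (M ^ p ^ s) (A s)) with ha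
  have ha0 : 0 ≤ a 0 := by
    have := h1 _ (lc d) M p r A hsys i
    rwa [map_zero] at this
  obtain ⟨X, iX, aX, hX⟩ := h5 G p r g₀ hp hcard hg₀ a ha0
    (fun s hs => h2 _ (lc d) M p r A hsys s hs i) (fun s hs => h3 _ (lc d) M p r A hsys s hs i)
  refine ⟨X, iX, aX, ?_⟩
  intro g
  -- write g as a power
  have hex : ∃ s, s ≤ r ∧ ∃ c, ¬ p ∣ c ∧ g = g₀ ^ (p ^ s * c) := by
    have hmem : g ∈ Submonoid.powers g₀ := by
      rw [mem_powers_iff_mem_zpowers]
      exact hg₀ g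
    obtain ⟨k, hk⟩ := hmem
    have hk' : g₀ ^ k = g := hk
    have h1p : ¬ p ∣ 1 := fun h => hp.one_lt.ne' (Nat.dvd_one.mp h)
    by_cases hg : g = 1
    · refine ⟨r, le_rfl, 1, h1p, ?_⟩
      rw [mul_one, ← hcard, pow_card_eq_one', hg]
    · have hk0 : k ≠ 0 := by
        rintro rfl
        exact hg (by rw [← hk', pow_zero])
      obtain ⟨s, c, hc, hkc⟩ := Nat.exists_eq_pow_mul_and_not_dvd hk0 p hp.one_lt.ne'
      refine ⟨s, ?_, c, hc, by rw [← hkc, hk']⟩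
      by_contra hs
      push Not at hs
      apply hg
      obtain ⟨t, ht⟩ := Nat.exists_eq_add_of_lt hs
      rw [← hk', hkc, ht, show r + t + 1 = r + (t + 1) by ring, pow_add, mul_assoc, pow_mul,
        ← hcard, pow_card_eq_one', one_pow]
  obtain ⟨s, hs, c, hc, hgc⟩ := hex
  have hhom : ρ.hom g = (M ^ p ^ s) ^ c := by rw [hgc, hpow, ← hM, pow_mul]
  have hNo : (M ^ p ^ s) ^ p ^ r = 1 := by rw [← pow_mul, mul_comm, pow_mul, hord, one_pow]
  have hsets : Cone (gen (T g)) = Cone (A s) := by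
    ext y
    rw [hcone g y, hfixA s hs y, hAr, hhom, fix_iff (M ^ p ^ s) p r c hp hNo hc y]
  have hch : (ρ.hom g).charpolyRev = (M ^ p ^ s).charpolyRev := by
    rw [hhom]
    exact h4 _ (M ^ p ^ s) p r c hp hNo hc
  have hnum : ∀ m, ρ.num (convexHull ℝ ((fun (v : Fin d → ℤ) (i : Fin d) => (v i : ℝ)) ''
      (S : Set (Fin d → ℤ)))) g m = cnt (ZL (Fin d ⊕ Unit)) (lc d) (Cone (A s)) m := by
    intro m
    rw [h11 G d ρ g S (T g) m (hcone g), hsets]
  have hval : PowerSeries.coeff i (ρ.hstar (convexHull ℝ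
      ((fun (v : Fin d → ℤ) (i : Fin d) => (v i : ℝ)) '' (S : Set (Fin d → ℤ)))) g) = a s := by
    unfold AffAct.hstar
    rw [hch]
    simp only [hnum]
    rfl
  rw [hval, ← hX s hs c hc, ← hgc]

end Pool.Agent.H35.EH.FIN
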